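import Pool.Agent.Helper99.AB.Stmts
import Pool.Agent.Helper7.Cover.Primes

set_option autoImplicit false

/-! AB row GA: averages of powers of `G` over intervals. -/

open Finset
open scoped BigOperators

namespace Pool.Agent.Helper96.AB

open Pool.Agent.Helper99.AB

lemma count_mult (u : ℤ) (H : ℕ) (d : ℕ) (hd : 0 < d) :
    (((Ioc u (u + H)).filter (fun n => (d : ℤ) ∣ n)).card : ℝ) ≤ H / d + 1 := by
  have h := Int.Ioc_filter_dvd_card (a := u) (b := u + H) (r := (d : ℤ)) (by exact_mod_cast hd)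
  have hd' : (0 : ℚ) < d := by exact_mod_cast hd
  have h1 : (((Ioc u (u + H)).filter (fun n => (d : ℤ) ∣ n)).card : ℚ) ≤ H / d + 1 := by
    have h2 : (((Ioc u (u + H)).filter (fun n => (d : ℤ) ∣ n)).card : ℚ) =
        ((max (⌊((u + H : ℤ) : ℚ) / ((d : ℤ) : ℚ)⌋ - ⌊(u : ℚ) / ((d : ℤ) : ℚ)⌋) 0 : ℤ) : ℚ) := by
      rw [← h]; push_cast; rfl
    rw [h2]
    push_cast
    have e1 := Int.floor_le (((u : ℚ) + H) / d)
    have e2 := Int.lt_floor_add_one ((u : ℚ) / d)
    have e3 : ((u : ℚ) + H) / d = u / d + H / d := by ring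
    have e4 : (0 : ℚ) ≤ H / d := by positivity
    apply max_le
    · rw [e3] at e1 ⊢
      linarith
    · linarith
  have h3 : ((((Ioc u (u + H)).filter (fun n => (d : ℤ) ∣ n)).card : ℚ) : ℝ) ≤
      (((H : ℚ) / d + 1 : ℚ) : ℝ) := by exact_mod_cast h1
  push_cast at h3
  exact h3

lemma card_pf (n : ℕ) (hn : n ≠ 0) (x : ℝ) (hx : (n : ℝ) ≤ x) :
    (n.primeFactors.card : ℝ) ≤ 2 * Real.log x := by
  have h1 : 2 ^ n.primeFactors.card ≤ n := by
    calc 2 ^ n.primeFactors.card = ∏ _l ∈ n.primeFactors, 2 := by rw [prod_const]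
      _ ≤ ∏ l ∈ n.primeFactors, l := by
        apply prod_le_prod'
        intro l hl
        exact (Nat.prime_of_mem_primeFactors hl).two_le
      _ ≤ n := Nat.le_of_dvd (Nat.pos_of_ne_zero hn) (Nat.prod_primeFactors_dvd n)
  have h2 : (2 : ℝ) ^ n.primeFactors.card ≤ n := by exact_mod_cast h1
  have hn0 : (0 : ℝ) < n := by exact_mod_cast Nat.pos_of_ne_zero hn
  have h3 := Real.log_le_log (by positivity) (h2.trans hx)
  rw [Real.log_pow] at h3
  have h4 := Real.log_two_gt_d9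
  have h5 : (0 : ℝ) ≤ n.primeFactors.card := by positivity
  nlinarith

lemma exp_le_lin (K : ℕ) (l : ℕ) (hl : 1 ≤ l) :
    Real.exp (K * (1 / (l : ℝ))) ≤ 1 + (K * Real.exp K) / l := by
  have hl' : (1 : ℝ) ≤ l := by exact_mod_cast hl
  set t : ℝ := K * (1 / (l : ℝ)) with ht
  have ht0 : 0 ≤ t := by positivity
  have htK : t ≤ K := by
    rw [ht]
    have : (1 : ℝ) / l ≤ 1 := by rw [div_le_one (by linarith)]; exact hl'
    nlinarith [Nat.cast_nonneg (α := ℝ) K]
  have h1 : Real.exp t ≤ 1 + t * Real.exp t := by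
    have := Real.add_one_le_exp (-t)
    have h2 : Real.exp (-t) * Real.exp t = 1 := by rw [← Real.exp_add]; simp
    nlinarith [Real.exp_pos t]
  have h2 : Real.exp t ≤ Real.exp K := Real.exp_le_exp.mpr htK
  have h3 : t * Real.exp t ≤ t * Real.exp K := mul_le_mul_of_nonneg_left h2 ht0
  have h4 : t * Real.exp K = (K * Real.exp K) / l := by rw [ht]; ring
  linarith

/-- Pointwise bound. -/
lemma G_pow_le (K : ℕ) (x : ℝ) (hx : 3 ≤ x) (n : ℤ) (hn : n ≠ 0) (hnx : |(n : ℝ)| ≤ x) :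
    G n ^ K ≤ Real.exp (2 * K) *
      ∏ l ∈ ((Icc 1 ⌊Real.log x⌋₊).filter Nat.Prime).filter (fun l : ℕ => (l : ℤ) ∣ n),
        (1 + (K * Real.exp K) / l) := by
  set N := ⌊Real.log x⌋₊ with hN
  have hlog : 1 < Real.log x := by
    have h1 : Real.exp 1 < 3 := by have := Real.exp_one_lt_d9; linarith
    have := (Real.lt_log_iff_exp_lt (by linarith)).mpr (lt_of_lt_of_le h1 hx)
    exact this
  have hna : n.natAbs ≠ 0 := Int.natAbs_ne_zero.mpr hn
  have hcast : ((n.natAbs : ℕ) : ℝ) = |(n : ℝ)| := by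
    rw [Nat.cast_natAbs, Int.cast_abs]
  have hcard := card_pf n.natAbs hna x (by rw [hcast]; exact hnx)
  set S := n.natAbs.primeFactors with hS
  have hsplit : ∑ l ∈ S, 1 / (l : ℝ) = ∑ l ∈ S.filter (fun l => l ≤ N), 1 / (l : ℝ) +
      ∑ l ∈ S.filter (fun l => ¬ l ≤ N), 1 / (l : ℝ) := (sum_filter_add_sum_filter_not _ _ _).symm
  have hB : ∑ l ∈ S.filter (fun l => ¬ l ≤ N), 1 / (l : ℝ) ≤ 2 := by
    calc ∑ l ∈ S.filter (fun l => ¬ l ≤ N), 1 / (l : ℝ)
        ≤ ∑ _l ∈ S.filter (fun l => ¬ l ≤ N), 1 / Real.log x := by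
          apply sum_le_sum
          intro l hl
          have h1 := (mem_filter.mp hl).2
          have h2 : N + 1 ≤ l := by omega
          have h3 : Real.log x < N + 1 := Nat.lt_floor_add_one _
          have h4 : ((N : ℝ) + 1) ≤ l := by exact_mod_cast h2
          apply one_div_le_one_div_of_le (by linarith) (by linarith)
      _ = ((S.filter (fun l => ¬ l ≤ N)).card : ℝ) * (1 / Real.log x) := by
          rw [sum_const, nsmul_eq_mul]
      _ ≤ (S.card : ℝ) * (1 / Real.log x) := by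
          apply mul_le_mul_of_nonneg_right _ (by positivity)
          exact_mod_cast card_filter_le _ _
      _ ≤ (2 * Real.log x) * (1 / Real.log x) := by
          apply mul_le_mul_of_nonneg_right hcard (by positivity)
      _ = 2 := by field_simp
  have hset : S.filter (fun l => l ≤ N) =
      ((Icc 1 N).filter Nat.Prime).filter (fun l : ℕ => (l : ℤ) ∣ n) := by
    ext l
    simp only [mem_filter, mem_Icc, hS, Nat.mem_primeFactors]
    constructor
    · rintro ⟨⟨hp, hd, -⟩, hle⟩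
      exact ⟨⟨⟨hp.one_lt.le, hle⟩, hp⟩, Int.natCast_dvd.mpr hd⟩
    · rintro ⟨⟨⟨-, hle⟩, hp⟩, hd⟩
      exact ⟨⟨hp, Int.natCast_dvd.mp hd, hna⟩, hle⟩
  have hG : G n ^ K = Real.exp (K * ∑ l ∈ S, 1 / (l : ℝ)) := by
    unfold G
    rw [← Real.exp_nat_mul]
  rw [hG, hsplit, ← hset]
  have h1 : Real.exp (K * (∑ l ∈ S.filter (fun l => l ≤ N), 1 / (l : ℝ) +
      ∑ l ∈ S.filter (fun l => ¬ l ≤ N), 1 / (l : ℝ))) ≤
      Real.exp (2 * K) * Real.exp (K * ∑ l ∈ S.filter (fun l => l ≤ N), 1 / (l : ℝ)) := by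
    rw [← Real.exp_add]
    apply Real.exp_le_exp.mpr
    have : (K : ℝ) * ∑ l ∈ S.filter (fun l => ¬ l ≤ N), 1 / (l : ℝ) ≤ K * 2 :=
      mul_le_mul_of_nonneg_left hB (by positivity)
    nlinarith
  refine h1.trans ?_
  apply mul_le_mul_of_nonneg_left _ (by positivity)
  rw [mul_sum, Real.exp_sum]
  apply prod_le_prod
  · intro l _; positivity
  · intro l hl
    have hp := Nat.prime_of_mem_primeFactors (mem_filter.mp hl).1
    exact exp_le_lin K l hp.one_lt.le

/-- Expansion of the product and counting of multiples. -/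
lemma sum_prod_le (c : ℝ) (hc : 0 ≤ c) (P : Finset ℕ) (hP : ∀ l ∈ P, l.Prime) (u : ℤ) (H : ℕ) :
    ∑ n ∈ Ioc u (u + H), ∏ l ∈ P.filter (fun l : ℕ => (l : ℤ) ∣ n), (1 + c / l) ≤
      H * ∏ l ∈ P, (1 + c / (l : ℝ) ^ 2) + ∏ l ∈ P, (1 + c / l) := by
  classical
  have h1 : ∀ n : ℤ, ∏ l ∈ P.filter (fun l : ℕ => (l : ℤ) ∣ n), (1 + c / (l : ℝ)) =
      ∑ T ∈ P.powerset, if (∀ l ∈ T, ((l : ℕ) : ℤ) ∣ n) then ∏ l ∈ T, (c / (l : ℝ)) else 0 := by
    intro n
    rw [prod_one_add, ← sum_filter]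
    apply sum_congr _ (fun _ _ => rfl)
    ext T
    simp only [mem_powerset, mem_filter]
    constructor
    · intro h
      exact ⟨h.trans (filter_subset _ _), fun l hl => (mem_filter.mp (h hl)).2⟩
    · rintro ⟨h, h'⟩ l hl
      exact mem_filter.mpr ⟨h hl, h' l hl⟩
  simp_rw [h1]
  rw [sum_comm]
  have h2 : ∀ T ∈ P.powerset, ∑ n ∈ Ioc u (u + H),
      (if (∀ l ∈ T, ((l : ℕ) : ℤ) ∣ n) then ∏ l ∈ T, (c / (l : ℝ)) else 0) ≤
      H * ∏ l ∈ T, (c / (l : ℝ) ^ 2) + ∏ l ∈ T, (c / (l : ℝ)) := by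
    intro T hT
    have hTP := mem_powerset.mp hT
    set d := ∏ l ∈ T, l with hd
    have hdpos : 0 < d := prod_pos (fun l hl => (hP l (hTP hl)).pos)
    have hd' : (0 : ℝ) < d := by exact_mod_cast hdpos
    rw [← sum_filter, sum_const, nsmul_eq_mul]
    have hsub : (Ioc u (u + H)).filter (fun n => ∀ l ∈ T, ((l : ℕ) : ℤ) ∣ n) ⊆
        (Ioc u (u + H)).filter (fun n => (d : ℤ) ∣ n) := by
      intro n hn
      rw [mem_filter] at hn ⊢
      refine ⟨hn.1, ?_⟩
      rw [Int.natCast_dvd, hd]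
      apply Finset.prod_primes_dvd
      · intro l hl
        exact (hP l (hTP hl)).prime
      · intro l hl
        exact Int.natCast_dvd.mp (hn.2 l hl)
    have hcard : (((Ioc u (u + H)).filter (fun n => ∀ l ∈ T, ((l : ℕ) : ℤ) ∣ n)).card : ℝ) ≤
        H / d + 1 := by
      refine le_trans ?_ (count_mult u H d hdpos)
      exact_mod_cast card_le_card hsub
    have hpr : (0 : ℝ) ≤ ∏ l ∈ T, (c / (l : ℝ)) := prod_nonneg (fun l _ => by positivity)
    calc (((Ioc u (u + H)).filter (fun n => ∀ l ∈ T, ((l : ℕ) : ℤ) ∣ n)).card : ℝ) *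
          ∏ l ∈ T, (c / (l : ℝ)) ≤ (H / d + 1) * ∏ l ∈ T, (c / (l : ℝ)) :=
          mul_le_mul_of_nonneg_right hcard hpr
      _ = H * ((∏ l ∈ T, (c / (l : ℝ))) / d) + ∏ l ∈ T, (c / (l : ℝ)) := by ring
      _ = H * ∏ l ∈ T, (c / (l : ℝ) ^ 2) + ∏ l ∈ T, (c / (l : ℝ)) := by
          have : (∏ l ∈ T, (c / (l : ℝ))) / d = ∏ l ∈ T, (c / (l : ℝ) ^ 2) := by
            rw [hd]
            push_cast
            rw [← prod_div_distrib]
            apply prod_congr rfl
            intro l hl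
            have : (l : ℝ) ≠ 0 := by exact_mod_cast (hP l (hTP hl)).ne_zero
            field_simp
          rw [this]
  refine (sum_le_sum h2).trans (le_of_eq ?_)
  rw [sum_add_distrib, ← mul_sum, prod_one_add, prod_one_add]

lemma pow_le_two_pow (m : ℕ) : ∃ B : ℝ, 0 < B ∧ ∀ k : ℕ, (k : ℝ) ^ m ≤ B * 2 ^ k := by
  have h := tendsto_pow_const_mul_const_pow_of_abs_lt_one m (r := (1 / 2 : ℝ))
    (by rw [abs_of_pos (by norm_num)]; norm_num)
  obtain ⟨B, hB⟩ := h.bddAbove_range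
  refine ⟨|B| + 1, by positivity, fun k => ?_⟩
  have h1 : (k : ℝ) ^ m * (1 / 2) ^ k ≤ B := hB ⟨k, rfl⟩
  have h2 : (k : ℝ) ^ m * (1 / 2) ^ k ≤ |B| + 1 := by have := le_abs_self B; linarith
  have h3 : ((1 : ℝ) / 2) ^ k * 2 ^ k = 1 := by rw [← mul_pow]; norm_num
  calc (k : ℝ) ^ m = (k : ℝ) ^ m * ((1 / 2) ^ k * 2 ^ k) := by rw [h3]; ring
    _ = ((k : ℝ) ^ m * (1 / 2) ^ k) * 2 ^ k := by ring
    _ ≤ (|B| + 1) * 2 ^ k := mul_le_mul_of_nonneg_right h2 (by positivity)

lemma prod_le_exp_sum (c : ℝ) (hc : 0 ≤ c) (P : Finset ℕ) (f : ℕ → ℝ) (hf : ∀ l ∈ P, 0 ≤ f l) :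
    ∏ l ∈ P, (1 + c * f l) ≤ Real.exp (c * ∑ l ∈ P, f l) := by
  rw [mul_sum, Real.exp_sum]
  apply prod_le_prod
  · intro l hl
    have := hf l hl
    positivity
  · intro l _
    have := Real.add_one_le_exp (c * f l)
    linarith

theorem st_GA : ST_GA := by
  intro K
  set c : ℝ := K * Real.exp K with hc
  have hc0 : 0 ≤ c := by positivity
  obtain ⟨m, hm⟩ := exists_nat_ge (5 * c)
  obtain ⟨B, hB0, hB⟩ := pow_le_two_pow m
  refine ⟨Real.exp (2 * K) * (Real.exp c + Real.exp (5 * c) * (2 * B)), by positivity,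
    fun u H x hx hn => ?_⟩
  set N := ⌊Real.log x⌋₊ with hN
  have hlog : 1 < Real.log x := by
    have h1 : Real.exp 1 < 3 := by have := Real.exp_one_lt_d9; linarith
    exact (Real.lt_log_iff_exp_lt (by linarith)).mpr (lt_of_lt_of_le h1 hx)
  have hN1 : 1 ≤ N := Nat.le_floor (by simpa using hlog.le)
  have hNle : (N : ℝ) ≤ Real.log x := Nat.floor_le (by linarith)
  set P := (Icc 1 N).filter Nat.Prime with hP
  have hPp : ∀ l ∈ P, l.Prime := fun l hl => (mem_filter.mp hl).2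
  have step1 : ∑ n ∈ (Ioc u (u + H)).filter (fun n => n ≠ 0), G n ^ K ≤
      Real.exp (2 * K) * ∑ n ∈ Ioc u (u + H),
        ∏ l ∈ P.filter (fun l : ℕ => (l : ℤ) ∣ n), (1 + c / l) := by
    rw [mul_sum]
    calc ∑ n ∈ (Ioc u (u + H)).filter (fun n => n ≠ 0), G n ^ K
        ≤ ∑ n ∈ (Ioc u (u + H)).filter (fun n => n ≠ 0), Real.exp (2 * K) *
          ∏ l ∈ P.filter (fun l : ℕ => (l : ℤ) ∣ n), (1 + c / l) := by
          apply sum_le_sum
          intro n hn'
          have h1 := mem_filter.mp hn'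
          exact G_pow_le K x hx n h1.2 (hn n h1.1)
      _ ≤ _ := by
          apply sum_le_sum_of_subset_of_nonneg (filter_subset _ _)
          intro n _ _
          apply mul_nonneg (by positivity)
          exact prod_nonneg (fun l _ => by positivity)
  have step2 := sum_prod_le c hc0 P hPp u H
  have step3 : ∏ l ∈ P, (1 + c / (l : ℝ) ^ 2) ≤ Real.exp c := by
    have h1 : ∏ l ∈ P, (1 + c / (l : ℝ) ^ 2) = ∏ l ∈ P, (1 + c * ((l : ℝ) ^ 2)⁻¹) :=
      prod_congr rfl (fun l _ => by rw [div_eq_mul_inv])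
    rw [h1]
    refine (prod_le_exp_sum c hc0 P (fun l => ((l : ℝ) ^ 2)⁻¹) (fun l _ => by positivity)).trans ?_
    apply Real.exp_le_exp.mpr
    have h2 : ∑ l ∈ P, ((l : ℝ) ^ 2)⁻¹ ≤ 1 := by
      calc ∑ l ∈ P, ((l : ℝ) ^ 2)⁻¹ ≤ ∑ l ∈ Ioc 1 N, ((l : ℝ) ^ 2)⁻¹ := by
            apply sum_le_sum_of_subset_of_nonneg
            · intro l hl
              have h3 := (mem_filter.mp hl)
              exact mem_Ioc.mpr ⟨h3.2.one_lt, (mem_Icc.mp h3.1).2⟩
            · intro l _ _; positivity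
        _ ≤ ((1 : ℕ) : ℝ)⁻¹ - ((N : ℕ) : ℝ)⁻¹ := sum_Ioc_inv_sq_le_sub one_ne_zero hN1
        _ ≤ 1 := by
            have : (0 : ℝ) ≤ (N : ℝ)⁻¹ := by positivity
            simp only [Nat.cast_one, inv_one]
            linarith
    nlinarith
  have step4 : ∏ l ∈ P, (1 + c / (l : ℝ)) ≤ Real.exp (5 * c) * (2 * B) * Real.log x := by
    have h1 : ∏ l ∈ P, (1 + c / (l : ℝ)) = ∏ l ∈ P, (1 + c * (1 / (l : ℝ))) :=
      prod_congr rfl (fun l _ => by ring)
    rw [h1]
    refine (prod_le_exp_sum c hc0 P (fun l => 1 / (l : ℝ)) (fun l _ => by positivity)).trans ?_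
    set k := Nat.log 2 N + 1 with hk
    have hk1 : 1 ≤ k := by omega
    have hNk : N ≤ 2 ^ k := (Nat.lt_pow_succ_log_self (by norm_num) N).le
    have h2k : 2 ^ k ≤ 2 * N := by
      rw [hk, pow_succ]
      have := Nat.pow_log_le_self 2 (x := N) (by omega)
      omega
    have h2 := Pool.Agent.Helper7.Cover.sum_inv_le N k hk1 hNk
    have hk0 : (0 : ℝ) < k := by exact_mod_cast hk1
    have hlk : 0 ≤ Real.log k := Real.log_nonneg (by exact_mod_cast hk1)
    calc Real.exp (c * ∑ l ∈ P, 1 / (l : ℝ)) ≤ Real.exp (5 * c + m * Real.log k) := by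
          apply Real.exp_le_exp.mpr
          have h3 : c * ∑ l ∈ P, 1 / (l : ℝ) ≤ c * (5 + 5 * Real.log k) :=
            mul_le_mul_of_nonneg_left h2 hc0
          have h4 : 5 * c * Real.log k ≤ m * Real.log k := mul_le_mul_of_nonneg_right hm hlk
          linarith
      _ = Real.exp (5 * c) * (k : ℝ) ^ m := by
          rw [Real.exp_add, ← Real.log_pow, Real.exp_log (by positivity)]
      _ ≤ Real.exp (5 * c) * (B * 2 ^ k) := mul_le_mul_of_nonneg_left (hB k) (by positivity)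
      _ ≤ Real.exp (5 * c) * (B * (2 * Real.log x)) := by
          apply mul_le_mul_of_nonneg_left _ (by positivity)
          apply mul_le_mul_of_nonneg_left _ hB0.le
          have h5 : (2 : ℝ) ^ k ≤ 2 * N := by exact_mod_cast h2k
          linarith
      _ = Real.exp (5 * c) * (2 * B) * Real.log x := by ring
  have hH : (0 : ℝ) ≤ H := by positivity
  have hE : 0 < Real.exp (2 * (K : ℝ)) := Real.exp_pos _
  calc ∑ n ∈ (Ioc u (u + H)).filter (fun n => n ≠ 0), G n ^ K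
      ≤ Real.exp (2 * K) * (H * Real.exp c + Real.exp (5 * c) * (2 * B) * Real.log x) := by
        refine step1.trans (mul_le_mul_of_nonneg_left (step2.trans ?_) hE.le)
        have := mul_le_mul_of_nonneg_left step3 hH
        linarith
    _ ≤ Real.exp (2 * K) * (Real.exp c + Real.exp (5 * c) * (2 * B)) * (H + Real.log x) := by
        have e1 : 0 ≤ Real.exp (5 * c) * (2 * B) * H := by positivity
        have e2 : 0 ≤ Real.exp c * Real.log x := by positivity
        have e3 : H * Real.exp c + Real.exp (5 * c) * (2 * B) * Real.log x ≤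
            (Real.exp c + Real.exp (5 * c) * (2 * B)) * (H + Real.log x) := by nlinarith
        have e4 := mul_le_mul_of_nonneg_left e3 hE.le
        linarith

end Pool.Agent.Helper96.AB
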