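import Pool.Agent.Helper99.AB.Stmts

set_option autoImplicit false

/-! AB row Z3: the sums over the parameters. -/

open Finset
open scoped BigOperators

namespace Pool.Agent.Helper96.AB

open Pool.Agent.Helper99.AB

lemma G_pos (n : ℤ) : 0 < G n := Real.exp_pos _

lemma sumI (M D : ℝ) (hM : 0 < M) (I : Finset ℕ)
    (hI : ∀ i ∈ I, 1 ≤ i ∧ (i : ℝ) * M < D ∧ D < 7 * (i : ℝ) * M) :
    ∑ i ∈ I, 1 / (i : ℝ) ≤ 7 := by
  set A : ℝ := D / (7 * M) with hA
  have h1 : ∀ i ∈ I, A < i ∧ (i : ℝ) < 7 * A := by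
    intro i hi
    obtain ⟨_, h2, h3⟩ := hI i hi
    constructor
    · rw [hA, div_lt_iff₀ (by positivity)]
      linarith
    · have : 7 * A = D / M := by rw [hA]; field_simp
      rw [this, lt_div_iff₀ hM]
      exact h2
  rcases lt_or_ge A 1 with hA1 | hA1
  · have hsub : I ⊆ Icc 1 6 := by
      intro i hi
      have h2 := (h1 i hi).2
      have h3 : (i : ℝ) < 7 := by linarith
      have h4 : i < 7 := by exact_mod_cast h3
      exact mem_Icc.mpr ⟨(hI i hi).1, by omega⟩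
    calc ∑ i ∈ I, 1 / (i : ℝ) ≤ ∑ _i ∈ I, (1 : ℝ) := by
          apply sum_le_sum
          intro i hi
          have h2 : (1 : ℝ) ≤ i := by exact_mod_cast (hI i hi).1
          rw [div_le_one (by linarith)]
          exact h2
      _ = (I.card : ℝ) := by simp
      _ ≤ ((Icc 1 6).card : ℝ) := by exact_mod_cast card_le_card hsub
      _ ≤ 7 := by simp; norm_num
  · have hsub : I ⊆ Ioc ⌊A⌋₊ ⌊7 * A⌋₊ := by
      intro i hi
      obtain ⟨h2, h3⟩ := h1 i hi
      exact mem_Ioc.mpr ⟨(Nat.floor_lt (by linarith)).mpr h2, Nat.le_floor h3.le⟩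
    have hcard : (I.card : ℝ) ≤ 7 * A := by
      have h2 : (I.card : ℝ) ≤ ((Ioc ⌊A⌋₊ ⌊7 * A⌋₊).card : ℝ) := by
        exact_mod_cast card_le_card hsub
      rw [Nat.card_Ioc] at h2
      have h3 : ⌊A⌋₊ ≤ ⌊7 * A⌋₊ := Nat.floor_le_floor (by linarith)
      rw [Nat.cast_sub h3] at h2
      have h4 : (⌊7 * A⌋₊ : ℝ) ≤ 7 * A := Nat.floor_le (by linarith)
      have h5 := Nat.lt_floor_add_one A
      linarith
    calc ∑ i ∈ I, 1 / (i : ℝ) ≤ ∑ _i ∈ I, 1 / A := by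
          apply sum_le_sum
          intro i hi
          exact one_div_le_one_div_of_le (by linarith) (h1 i hi).1.le
      _ = (I.card : ℝ) * (1 / A) := by rw [sum_const, nsmul_eq_mul]
      _ ≤ (7 * A) * (1 / A) := mul_le_mul_of_nonneg_right hcard (by positivity)
      _ = 7 := by field_simp

/-- The range of the two variables `β, β'`. -/
noncomputable def BB (κ M : ℝ) : Finset ℕ := Icc 1 ⌊Le κ M / 2⌋₊

/-- The condition of `RR`. -/
def PP (M : ℝ) (i b b' : ℕ) : Prop :=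
  (i : ℝ) * M < (b : ℝ) ^ 2 - (b' : ℝ) ^ 2 ∧ (b : ℝ) ^ 2 - (b' : ℝ) ^ 2 < 7 * (i : ℝ) * M

open Classical in
lemma sum_RR (κ M : ℝ) (f : ℕ → ℕ → ℕ → ℝ) (E : ℕ → ℕ → ℕ → ℤ) :
    ∑ r ∈ (RR κ M).filter (fun r => E r.1 r.2.1 r.2.2 ≠ 0), f r.1 r.2.1 r.2.2 =
      ∑ i ∈ Icc 1 ⌊Real.log M ^ 2⌋₊, ∑ b ∈ BB κ M,
        ∑ b' ∈ (BB κ M).filter (fun b' => PP M i b b' ∧ E i b b' ≠ 0), f i b b' := by
  unfold RR
  rw [filter_filter, sum_filter, sum_product]
  apply sum_congr rfl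
  intro i _
  rw [sum_product]
  apply sum_congr rfl
  intro b _
  rw [sum_filter]
  apply sum_congr rfl
  intro b' _
  exact if_congr Iff.rfl rfl rfl

open Classical in
lemma sum_main (κ M : ℝ) (hM : 0 < M) (F : ℕ → ℕ → ℝ) (hF : ∀ b b', 0 ≤ F b b') :
    ∑ i ∈ Icc 1 ⌊Real.log M ^ 2⌋₊, ∑ b ∈ BB κ M,
        ∑ b' ∈ (BB κ M).filter (fun b' => PP M i b b'), 1 / (i : ℝ) * F b b' ≤
      7 * ∑ b ∈ BB κ M, ∑ b' ∈ BB κ M, F b b' := by
  rw [sum_comm, mul_sum]
  apply sum_le_sum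
  intro b _
  simp_rw [sum_filter]
  rw [sum_comm, mul_sum]
  apply sum_le_sum
  intro b' _
  rw [← sum_filter, ← sum_mul]
  apply mul_le_mul_of_nonneg_right _ (hF b b')
  apply sumI M ((b : ℝ) ^ 2 - (b' : ℝ) ^ 2) hM
  intro i hi
  rw [mem_filter, mem_Icc] at hi
  exact ⟨hi.1.1, hi.2.1, hi.2.2⟩

lemma ivl (S : Finset ℕ) (hS : ∀ a ∈ S, ∀ c ∈ S, ∀ b, a ≤ b → b ≤ c → b ∈ S)
    (hne : S.Nonempty) : S = Icc (S.min' hne) (S.max' hne) := by
  ext b
  rw [mem_Icc]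
  constructor
  · intro hb
    exact ⟨S.min'_le b hb, S.le_max' b hb⟩
  · rintro ⟨h1, h2⟩
    exact hS _ (S.min'_mem hne) _ (S.max'_mem hne) b h1 h2

/-- GA for an affine image of an interval. -/
lemma GA_aff (C : ℝ) (hC : 0 < C) (K : ℕ)
    (hGA : ∀ (u : ℤ) (H : ℕ) (x : ℝ), 3 ≤ x → (∀ n ∈ Ioc u (u + H), |(n : ℝ)| ≤ x) →
      ∑ n ∈ (Ioc u (u + H)).filter (fun n => n ≠ 0), G n ^ K ≤ C * (H + Real.log x))
    (S : Finset ℕ) (hS : ∀ a ∈ S, ∀ c ∈ S, ∀ b, a ≤ b → b ≤ c → b ∈ S)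
    (e : ℕ → ℤ) (he : (∃ c0 : ℤ, ∀ b, e b = c0 + b) ∨ (∃ c0 : ℤ, ∀ b, e b = c0 - b))
    (x : ℝ) (hx : 3 ≤ x) (hb : ∀ b ∈ S, |(e b : ℝ)| ≤ x) :
    ∑ b ∈ S.filter (fun b => e b ≠ 0), G (e b) ^ K ≤ C * (S.card + Real.log x) := by
  have hlog : 0 ≤ Real.log x := Real.log_nonneg (by linarith)
  rcases S.eq_empty_or_nonempty with rfl | hne
  · simp only [filter_empty, sum_empty, card_empty, Nat.cast_zero, zero_add]
    positivity
  have hiv := ivl S hS hne
  set a := S.min' hne with ha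
  set c := S.max' hne with hc
  have hac : a ≤ c := S.min'_le c (S.max'_mem hne)
  have hcard : S.card = c + 1 - a := by rw [hiv, Nat.card_Icc]
  have hmem : ∀ b, b ∈ S ↔ a ≤ b ∧ b ≤ c := by
    intro b
    conv_lhs => rw [hiv]
    rw [mem_Icc]
  have hinj : Function.Injective e := by
    rcases he with ⟨c0, h⟩ | ⟨c0, h⟩ <;> intro b b' hbb' <;> rw [h, h] at hbb' <;> omega
  obtain ⟨u, hu⟩ : ∃ u : ℤ, ∀ n : ℤ, n ∈ Ioc u (u + S.card) ↔ ∃ b ∈ S, e b = n := by
    rcases he with ⟨c0, h⟩ | ⟨c0, h⟩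
    · refine ⟨c0 + a - 1, fun n => ?_⟩
      rw [mem_Ioc, hcard]
      constructor
      · rintro ⟨h1, h2⟩
        refine ⟨(n - c0).toNat, (hmem _).mpr ⟨by omega, by omega⟩, ?_⟩
        rw [h]; omega
      · rintro ⟨b, hbS, rfl⟩
        have := (hmem b).mp hbS
        rw [h]
        constructor <;> omega
    · refine ⟨c0 - c - 1, fun n => ?_⟩
      rw [mem_Ioc, hcard]
      constructor
      · rintro ⟨h1, h2⟩
        refine ⟨(c0 - n).toNat, (hmem _).mpr ⟨by omega, by omega⟩, ?_⟩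
        rw [h]; omega
      · rintro ⟨b, hbS, rfl⟩
        have := (hmem b).mp hbS
        rw [h]
        constructor <;> omega
  have h1 := hGA u S.card x hx (by
    intro n hn
    obtain ⟨b, hbS, rfl⟩ := (hu n).mp hn
    exact hb b hbS)
  refine le_trans ?_ h1
  rw [← sum_image (s := S.filter (fun b => e b ≠ 0)) (g := e) (f := fun n => G n ^ K)
    (fun b _ b' _ hbb' => hinj hbb')]
  apply sum_le_sum_of_subset_of_nonneg
  · intro n hn
    rw [mem_image] at hn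
    obtain ⟨b, hb1, rfl⟩ := hn
    rw [mem_filter] at hb1 ⊢
    exact ⟨(hu _).mpr ⟨b, hb1.1, rfl⟩, hb1.2⟩
  · intro n _ _
    have := G_pos n
    positivity

/-- GA for the even numbers. -/
lemma GA_even (C : ℝ) (K : ℕ)
    (hGA : ∀ (u : ℤ) (H : ℕ) (x : ℝ), 3 ≤ x → (∀ n ∈ Ioc u (u + H), |(n : ℝ)| ≤ x) →
      ∑ n ∈ (Ioc u (u + H)).filter (fun n => n ≠ 0), G n ^ K ≤ C * (H + Real.log x))
    (L : ℕ) (x : ℝ) (hx : 3 ≤ x) (hL : 2 * (L : ℝ) ≤ x) :
    ∑ b ∈ Icc 1 L, G (2 * (b : ℤ)) ^ K ≤ C * (2 * L + Real.log x) := by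
  have h1 := hGA 0 (2 * L) x hx (by
    intro n hn
    rw [mem_Ioc] at hn
    have h2 : (0 : ℝ) < n := by exact_mod_cast hn.1
    have h3 : (n : ℝ) ≤ 2 * L := by
      have := hn.2
      have h4 : n ≤ 2 * (L : ℤ) := by push_cast at this; linarith
      exact_mod_cast h4
    rw [abs_of_pos h2]
    linarith)
  push_cast at h1
  refine le_trans ?_ h1
  rw [← sum_image (s := Icc 1 L) (g := fun b : ℕ => 2 * (b : ℤ)) (f := fun n => G n ^ K)
    (fun b _ b' _ hbb' => by simpa using hbb')]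
  apply sum_le_sum_of_subset_of_nonneg
  · intro n hn
    rw [mem_image] at hn
    obtain ⟨b, hb1, rfl⟩ := hn
    rw [mem_Icc] at hb1
    rw [mem_filter, mem_Ioc]
    refine ⟨⟨by omega, by omega⟩, by omega⟩
  · intro n _ _
    have := G_pos n
    positivity

/-- The size conditions on `M`. -/
lemma size (κ : ℝ) (hκ : 0 < κ) : ∃ M₀ : ℝ, ∀ M : ℝ, M₀ ≤ M →
    8 ≤ M ∧ 2 ≤ Real.log M ∧ Real.log M ^ 3 ≤ κ * Real.sqrt M := by
  have h1 : ∀ᶠ M : ℝ in Filter.atTop, ‖Real.log M ^ 3‖ ≤ κ * ‖M ^ (1 / 2 : ℝ)‖ := by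
    have h2 := (isLittleO_log_rpow_atTop (r := 1 / 6) (by norm_num)).pow (n := 3) (by norm_num)
    have h3 : (fun M : ℝ => (M ^ (1 / 6 : ℝ)) ^ 3) =ᶠ[Filter.atTop] fun M => M ^ (1 / 2 : ℝ) := by
      filter_upwards [Filter.eventually_ge_atTop 0] with M hM
      rw [← Real.rpow_natCast, ← Real.rpow_mul hM]
      norm_num
    exact (h2.congr' (by rfl) h3).def hκ
  have h4 : ∀ᶠ M : ℝ in Filter.atTop, 2 ≤ Real.log M :=
    Real.tendsto_log_atTop.eventually_ge_atTop 2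
  obtain ⟨M₀, hM₀⟩ := Filter.eventually_atTop.mp
    (h1.and (h4.and (Filter.eventually_ge_atTop (8 : ℝ))))
  refine ⟨M₀, fun M hM => ?_⟩
  obtain ⟨e1, e2, e3⟩ := hM₀ M hM
  refine ⟨e3, e2, ?_⟩
  rw [← Real.sqrt_eq_rpow, Real.norm_of_nonneg (Real.sqrt_nonneg _)] at e1
  exact (Real.le_norm_self _).trans e1

open Classical in
theorem st_Z3 : ST_GA → ST_Z3 := by
  intro hga
  obtain ⟨C, hC, hGA⟩ := hga 18
  refine ⟨7 * C, by positivity, fun κ hκ hκ1 => ?_⟩
  obtain ⟨M₀, hM₀⟩ := size κ hκ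
  refine ⟨M₀, fun M hM k => ?_⟩
  obtain ⟨hM8, hlog2, hlog3⟩ := hM₀ M hM
  have hM0 : 0 < M := by linarith
  set l := Real.log M with hl
  set s := Real.sqrt M with hs
  have hs0 : 0 < s := Real.sqrt_pos.mpr hM0
  have hss : s * s = M := Real.mul_self_sqrt hM0.le
  set A := Le κ M with hA
  have hAeq : A = κ * s * l := rfl
  have hks : κ * s ≤ s := by nlinarith
  have hl3 : l ≤ s := by nlinarith [sq_nonneg l, sq_nonneg (l - 1)]
  have hA1 : κ * s ≤ A := by rw [hAeq]; nlinarith [mul_pos hκ hs0]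
  have hA3 : l ^ 3 ≤ A := hlog3.trans hA1
  have hA2 : l ^ 2 ≤ A := by nlinarith [sq_nonneg l]
  have hA4 : 4 ≤ A := by nlinarith
  have hA0 : 0 < A := by linarith
  have hlogx : Real.log (4 * A) ≤ 2 * l := by
    have h1 : 4 * A ≤ M ^ 2 := by
      have h2 : A ≤ s * s := by
        rw [hAeq]
        exact mul_le_mul hks hl3 (by linarith) hs0.le
      rw [hss] at h2
      nlinarith
    have h2 := Real.log_le_log (by linarith) h1
    rw [Real.log_pow] at h2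
    push_cast at h2
    exact h2
  have hlogx0 : 0 ≤ Real.log (4 * A) := Real.log_nonneg (by linarith)
  have hlogA : Real.log (4 * A) ≤ A := by nlinarith
  set L := ⌊A / 2⌋₊ with hL
  have hLA : (L : ℝ) ≤ A / 2 := Nat.floor_le (by linarith)
  have hBB : BB κ M = Icc 1 L := rfl
  have hBcard : ((BB κ M).card : ℝ) = L := by rw [hBB, Nat.card_Icc]; simp
  have hIcard : ((Icc 1 ⌊l ^ 2⌋₊).card : ℝ) ≤ l ^ 2 := by
    rw [Nat.card_Icc]
    simpa using Nat.floor_le (by positivity : 0 ≤ l ^ 2)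
  have hL0 : (0 : ℝ) ≤ L := by positivity
  -- one of the two variables only
  have hone : ∀ F : ℕ → ℕ → ℝ, (∀ b b', 0 ≤ F b b') →
      ∑ b ∈ BB κ M, ∑ b' ∈ BB κ M, F b b' ≤ A * A * C →
      ∀ E : ℕ → ℕ → ℕ → ℤ,
      ∑ r ∈ (RR κ M).filter (fun r => E r.1 r.2.1 r.2.2 ≠ 0), 1 / (r.1 : ℝ) * F r.2.1 r.2.2 ≤
        7 * C * A ^ 2 := by
    intro F hF hsum E
    have h1 := sum_RR κ M (fun i b b' => 1 / (i : ℝ) * F b b') E
    rw [h1]
    calc _ ≤ ∑ i ∈ Icc 1 ⌊Real.log M ^ 2⌋₊, ∑ b ∈ BB κ M,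
        ∑ b' ∈ (BB κ M).filter (fun b' => PP M i b b'), 1 / (i : ℝ) * F b b' := by
          apply sum_le_sum
          intro i _
          apply sum_le_sum
          intro b _
          apply sum_le_sum_of_subset_of_nonneg
          · intro b' hb'
            rw [mem_filter] at hb' ⊢
            exact ⟨hb'.1, hb'.2.1⟩
          · intro b' _ _
            have := hF b b'
            positivity
      _ ≤ 7 * ∑ b ∈ BB κ M, ∑ b' ∈ BB κ M, F b b' := sum_main κ M hM0 F hF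
      _ ≤ 7 * C * A ^ 2 := by nlinarith
  have heven : ∑ b ∈ Icc 1 L, G (2 * (b : ℤ)) ^ 18 ≤ C * (2 * L + Real.log (4 * A)) :=
    GA_even C 18 hGA L (4 * A) (by linarith) (by linarith)
  have heven2 : (L : ℝ) * ∑ b ∈ Icc 1 L, G (2 * (b : ℤ)) ^ 18 ≤ A * A * C := by
    have h1 : C * (2 * L + Real.log (4 * A)) ≤ C * (2 * A) := by
      apply mul_le_mul_of_nonneg_left _ hC.le
      linarith
    have h2 := heven.trans h1
    calc (L : ℝ) * ∑ b ∈ Icc 1 L, G (2 * (b : ℤ)) ^ 18 ≤ (A / 2) * (C * (2 * A)) := by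
          apply mul_le_mul hLA h2 _ (by linarith)
          exact sum_nonneg (fun b _ => by have := G_pos (2 * (b : ℤ)); positivity)
      _ = A * A * C := by ring
  -- the other forms
  have hfour : ∀ E : ℕ → ℕ → ℕ → ℤ,
      (∀ i b, (∃ c0 : ℤ, ∀ b', E i b b' = c0 + b') ∨ (∃ c0 : ℤ, ∀ b', E i b b' = c0 - b')) →
      (∀ i b b' : ℕ, |(E i b b' : ℝ)| ≤ i + b + b') →
      ∑ r ∈ (RR κ M).filter (fun r => E r.1 r.2.1 r.2.2 ≠ 0), 1 / (r.1 : ℝ) *
        G (E r.1 r.2.1 r.2.2) ^ 18 ≤ 7 * C * A ^ 2 := by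
    intro E hE1 hE2
    have h1 := sum_RR κ M (fun i b b' => 1 / (i : ℝ) * G (E i b b') ^ 18) E
    rw [h1]
    have h2 : ∀ i ∈ Icc 1 ⌊Real.log M ^ 2⌋₊, ∀ b ∈ BB κ M,
        ∑ b' ∈ (BB κ M).filter (fun b' => PP M i b b' ∧ E i b b' ≠ 0),
          1 / (i : ℝ) * G (E i b b') ^ 18 ≤
        1 / (i : ℝ) * (C * (((BB κ M).filter (fun b' => PP M i b b')).card +
          Real.log (4 * A))) := by
      intro i hi b hb
      rw [← mul_sum, ← filter_filter]
      apply mul_le_mul_of_nonneg_left _ (by positivity)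
      apply GA_aff C hC 18 hGA _ _ (E i b) (hE1 i b) (4 * A) (by linarith)
      · intro b' hb'
        refine (hE2 i b b').trans ?_
        rw [mem_Icc] at hi
        rw [mem_filter, hBB, mem_Icc] at hb'
        rw [hBB, mem_Icc] at hb
        have e1 : (i : ℝ) ≤ l ^ 2 :=
          le_trans (by exact_mod_cast hi.2) (Nat.floor_le (by positivity : 0 ≤ l ^ 2))
        have e2 : (b : ℝ) ≤ L := by exact_mod_cast hb.2
        have e3 : (b' : ℝ) ≤ L := by exact_mod_cast hb'.1.2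
        linarith
      · intro a ha c hc b' hab hbc
        rw [mem_filter, hBB, mem_Icc] at ha hc ⊢
        have e1 : (a : ℝ) ≤ b' := by exact_mod_cast hab
        have e2 : (b' : ℝ) ≤ c := by exact_mod_cast hbc
        have e3 : (a : ℝ) ^ 2 ≤ (b' : ℝ) ^ 2 := by
          apply pow_le_pow_left₀ (by positivity) e1
        have e4 : (b' : ℝ) ^ 2 ≤ (c : ℝ) ^ 2 := by
          apply pow_le_pow_left₀ (by positivity) e2
        refine ⟨⟨by omega, by omega⟩, ?_, ?_⟩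
        · have := hc.2.1
          linarith
        · have := ha.2.2
          linarith
    have h3 : ∑ i ∈ Icc 1 ⌊Real.log M ^ 2⌋₊, ∑ b ∈ BB κ M,
        (1 / (i : ℝ) * (C * (((BB κ M).filter (fun b' => PP M i b b')).card +
          Real.log (4 * A)))) ≤ 7 * C * A ^ 2 := by
      have e1 : ∑ i ∈ Icc 1 ⌊Real.log M ^ 2⌋₊, ∑ b ∈ BB κ M,
          (1 / (i : ℝ) * (C * (((BB κ M).filter (fun b' => PP M i b b')).card +
          Real.log (4 * A)))) =
          C * (∑ i ∈ Icc 1 ⌊Real.log M ^ 2⌋₊, ∑ b ∈ BB κ M,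
            ∑ b' ∈ (BB κ M).filter (fun b' => PP M i b b'), 1 / (i : ℝ) * (1 : ℝ)) +
          C * Real.log (4 * A) * ∑ i ∈ Icc 1 ⌊Real.log M ^ 2⌋₊, ∑ b ∈ BB κ M, 1 / (i : ℝ) := by
        rw [mul_sum, mul_sum, ← sum_add_distrib]
        apply sum_congr rfl
        intro i _
        rw [mul_sum, mul_sum, ← sum_add_distrib]
        apply sum_congr rfl
        intro b _
        rw [sum_const, nsmul_eq_mul]
        ring
      rw [e1]
      have e2 := sum_main κ M hM0 (fun _ _ => (1 : ℝ)) (fun _ _ => zero_le_one)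
      have e3 : ∑ b ∈ BB κ M, ∑ b' ∈ BB κ M, (1 : ℝ) = (L : ℝ) * L := by
        simp only [sum_const, nsmul_eq_mul, mul_one]
        rw [hBcard]
      have e4 : ∑ i ∈ Icc 1 ⌊Real.log M ^ 2⌋₊, ∑ b ∈ BB κ M, 1 / (i : ℝ) ≤ l ^ 2 * L := by
        calc ∑ i ∈ Icc 1 ⌊Real.log M ^ 2⌋₊, ∑ b ∈ BB κ M, 1 / (i : ℝ)
            ≤ ∑ i ∈ Icc 1 ⌊Real.log M ^ 2⌋₊, (L : ℝ) := by
              apply sum_le_sum
              intro i hi
              rw [sum_const, nsmul_eq_mul, hBcard]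
              have : (1 : ℝ) ≤ i := by exact_mod_cast (mem_Icc.mp hi).1
              have h5 : 1 / (i : ℝ) ≤ 1 := by rw [div_le_one (by linarith)]; exact this
              nlinarith
          _ = ((Icc 1 ⌊l ^ 2⌋₊).card : ℝ) * L := by rw [sum_const, nsmul_eq_mul]
          _ ≤ l ^ 2 * L := mul_le_mul_of_nonneg_right hIcard hL0
      rw [e3] at e2
      have e5 : (L : ℝ) * L ≤ A ^ 2 / 4 := by nlinarith
      have e6 : C * Real.log (4 * A) * (l ^ 2 * L) ≤ C * A ^ 2 := by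
        have f1 : Real.log (4 * A) * (l ^ 2 * L) ≤ (2 * l) * (l ^ 2 * (A / 2)) := by
          apply mul_le_mul hlogx _ (by positivity) (by linarith)
          apply mul_le_mul_of_nonneg_left hLA (by positivity)
        have f2 : (2 * l) * (l ^ 2 * (A / 2)) = l ^ 3 * A := by ring
        have f3 : l ^ 3 * A ≤ A * A := mul_le_mul_of_nonneg_right hA3 hA0.le
        calc C * Real.log (4 * A) * (l ^ 2 * L) = C * (Real.log (4 * A) * (l ^ 2 * L)) := by ring
          _ ≤ C * (A * A) := mul_le_mul_of_nonneg_left (by linarith) hC.le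
          _ = C * A ^ 2 := by ring
      have e7 : C * Real.log (4 * A) * ∑ i ∈ Icc 1 ⌊Real.log M ^ 2⌋₊, ∑ b ∈ BB κ M,
          1 / (i : ℝ) ≤ C * A ^ 2 := by
        refine le_trans (mul_le_mul_of_nonneg_left e4 (by positivity)) e6
      have e8 := mul_le_mul_of_nonneg_left (e2.trans (mul_le_mul_of_nonneg_left e5
        (by norm_num : (0 : ℝ) ≤ 7))) hC.le
      nlinarith [mul_pos hC (pow_pos hA0 2)]
    exact (sum_le_sum (fun i hi => sum_le_sum (fun b hb => h2 i hi b hb))).trans h3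
  fin_cases k
  · apply hone (fun b _ => G (2 * (b : ℤ)) ^ 18) (fun b _ => by
      have := G_pos (2 * (b : ℤ)); positivity)
    rw [sum_comm]
    simp only [sum_const, nsmul_eq_mul]
    rw [hBcard, hBB]
    exact heven2
  · apply hone (fun _ b' => G (2 * (b' : ℤ)) ^ 18) (fun _ b' => by
      have := G_pos (2 * (b' : ℤ)); positivity)
    simp only [sum_const, nsmul_eq_mul]
    rw [hBcard, hBB]
    exact heven2
  · apply hfour (fun i b b' => (i : ℤ) - b + b')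
    · intro i b
      exact Or.inl ⟨(i : ℤ) - b, fun b' => rfl⟩
    · intro i b b'
      push_cast
      rw [abs_le]
      constructor <;> linarith [Nat.cast_nonneg (α := ℝ) i, Nat.cast_nonneg (α := ℝ) b,
        Nat.cast_nonneg (α := ℝ) b']
  · apply hfour (fun i b b' => (i : ℤ) - b - b')
    · intro i b
      exact Or.inr ⟨(i : ℤ) - b, fun b' => rfl⟩
    · intro i b b'
      push_cast
      rw [abs_le]
      constructor <;> linarith [Nat.cast_nonneg (α := ℝ) i, Nat.cast_nonneg (α := ℝ) b,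
        Nat.cast_nonneg (α := ℝ) b']
  · apply hfour (fun i b b' => (i : ℤ) + b + b')
    · intro i b
      exact Or.inl ⟨(i : ℤ) + b, fun b' => rfl⟩
    · intro i b b'
      push_cast
      rw [abs_le]
      constructor <;> linarith [Nat.cast_nonneg (α := ℝ) i, Nat.cast_nonneg (α := ℝ) b,
        Nat.cast_nonneg (α := ℝ) b']
  · apply hfour (fun i b b' => (i : ℤ) + b - b')
    · intro i b
      exact Or.inr ⟨(i : ℤ) + b, fun b' => rfl⟩
    · intro i b b'
      push_cast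
      rw [abs_le]
      constructor <;> linarith [Nat.cast_nonneg (α := ℝ) i, Nat.cast_nonneg (α := ℝ) b,
        Nat.cast_nonneg (α := ℝ) b']

end Pool.Agent.Helper96.AB
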